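import Pool.Agent.Helper62.OP.Defs
import Pool.Agent.Helper53.NS.Dev

/-!
# OP, block O4a: outside a small exceptional set all statistics are near their mean
-/

set_option autoImplicit false
open MeasureTheory Set Filter Topology
open Pool.Agent.Helper57.Zeta Pool.Agent.Helper57.LH Pool.Agent.Helper57.ED
open Pool.Agent.Helper93.UG (zc sp)
open Pool.Agent.Helper56.UG (zc_mono zc_union)
open Pool.Agent.Helper53.NS (zc_add)
open Pool.Agent.Helper57.NS (cnt)
open Pool.Agent.Helper62.OP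

namespace Pool.Agent.Helper8.OP

/-- the signed number of the zeros between `t` and `t + x s` -/
noncomputable def sN (T t x : ℝ) : ℝ :=
  if 0 ≤ x then (zc (Ico t (t + x * sp T)) : ℝ) else -(zc (Ico (t + x * sp T) t) : ℝ)

lemma sN_diff {T : ℝ} (hs : 0 < sp T) (t : ℝ) {a b : ℝ} (hab : a ≤ b) :
    (zc (Ico (t + a * sp T) (t + b * sp T)) : ℝ) = sN T t b - sN T t a := by
  have h1 : t + a * sp T ≤ t + b * sp T := by nlinarith
  unfold sN
  rcases le_or_gt 0 a with ha | ha
  · have hb : 0 ≤ b := ha.trans hab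
    rw [if_pos ha, if_pos hb, zc_add (a := t) (b := t + a * sp T) (c := t + b * sp T) (by nlinarith) h1]
    push_cast
    ring
  · rcases le_or_gt 0 b with hb | hb
    · rw [if_neg (not_le.2 ha), if_pos hb, zc_add (a := t + a * sp T) (b := t) (c := t + b * sp T) (by nlinarith) (by nlinarith)]
      push_cast
      ring
    · rw [if_neg (not_le.2 ha), if_neg (not_le.2 hb), zc_add (a := t + a * sp T) (b := t + b * sp T) (c := t) h1 (by nlinarith)]
      push_cast
      ring

/-- the count in a closed window -/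
lemma cnt_near {T : ℝ} (hs : 0 < sp T) (t : ℝ) {L δ : ℝ} (h : ∀ x : ℝ, |x| ≤ L + 1 → |sN T t x - x| ≤ δ) {a b : ℝ} (hab : a ≤ b)
    (ha : -L ≤ a) (hb : b ≤ L) : |cnt T t (Icc a b) - (b - a)| ≤ 2 * δ + 1 := by
  have e : {u : ℝ | (u - t) / sp T ∈ Icc a b} = Icc (t + a * sp T) (t + b * sp T) := by
    ext u
    simp only [Set.mem_ofPred_eq, Set.mem_Icc]
    rw [le_div_iff₀ hs, div_le_iff₀ hs]
    constructor
    · rintro ⟨h1, h2⟩
      constructor <;> linarith
    · rintro ⟨h1, h2⟩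
      constructor <;> linarith
  have h1 : zc (Ico (t + a * sp T) (t + b * sp T)) ≤ zc (Icc (t + a * sp T) (t + b * sp T)) :=
    zc_mono Ico_subset_Icc_self (Subset.refl _)
  have h2 : zc (Icc (t + a * sp T) (t + b * sp T)) ≤ zc (Ico (t + a * sp T) (t + (b + 1) * sp T)) :=
    zc_mono (fun u hu => ⟨hu.1, by nlinarith [hu.2]⟩) Ico_subset_Icc_self
  have h1' : (zc (Ico (t + a * sp T) (t + b * sp T)) : ℝ) ≤ (zc (Icc (t + a * sp T) (t + b * sp T)) : ℝ) := by exact_mod_cast h1
  have h2' : (zc (Icc (t + a * sp T) (t + b * sp T)) : ℝ) ≤ (zc (Ico (t + a * sp T) (t + (b + 1) * sp T)) : ℝ) := by exact_mod_cast h2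
  rw [sN_diff hs t hab] at h1'
  rw [sN_diff hs t (by linarith : a ≤ b + 1)] at h2'
  have k1 := abs_le.1 (h a (abs_le.2 ⟨by linarith, by linarith⟩))
  have k2 := abs_le.1 (h b (abs_le.2 ⟨by linarith, by linarith⟩))
  have k3 := abs_le.1 (h (b + 1) (abs_le.2 ⟨by linarith, by linarith⟩))
  unfold Pool.Agent.Helper57.NS.cnt
  rw [e, abs_le]
  constructor <;> linarith [k1.1, k1.2, k2.1, k2.2, k3.1, k3.2]

/-- the statistics -/
lemma st_near {T R L δ : ℝ} (hs : 0 < sp T) (t : ℝ) (hR : 0 ≤ R) (hRL : R ≤ L) (hδ : 0 ≤ δ)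
    (h : ∀ x : ℝ, |x| ≤ L + 1 → |sN T t x - x| ≤ δ) (F : Fam R L) :
    |St F T t - Ev F id| ≤ F.B * (2 * δ + 1) := by
  have h0 := cnt_near hs t h (a := -R) (b := R) (by linarith) (by linarith) hRL
  have hi : ∀ i, |cnt T t (Icc (F.a i) (F.b i)) - (F.b i - F.a i)| ≤ 2 * δ + 1 := by
    intro i
    refine cnt_near hs t h (F.le i) ?_ ?_
    · rcases F.out i with h1 | h1
      · exact h1.1
      · linarith [h1.1]
    · rcases F.out i with h1 | h1
      · linarith [h1.2]
      · exact h1.2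
  have e : St F T t - Ev F id = (cnt T t (Icc (-R) R) - (R - -R)) +
      ∑ i, F.c i * (cnt T t (Icc (F.a i) (F.b i)) - (F.b i - F.a i)) := by
    unfold St Ev
    simp only [id, mul_sub, Finset.sum_sub_distrib]
    ring
  rw [e]
  refine (abs_add_le _ _).trans ?_
  have h2 : |∑ i, F.c i * (cnt T t (Icc (F.a i) (F.b i)) - (F.b i - F.a i))| ≤ ∑ i, |F.c i| * (2 * δ + 1) := by
    refine (Finset.abs_sum_le_sum_abs _ _).trans (Finset.sum_le_sum fun i _ => ?_)
    rw [abs_mul]
    exact mul_le_mul_of_nonneg_left (hi i) (abs_nonneg _)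
  rw [← Finset.sum_mul] at h2
  unfold Fam.B
  linarith

/-- O4a -/
theorem st_bd_of (h1 : Pool.Agent.Helper93.UX.TX1) {d : ℝ} (hd : 0 < d) (hd1 : d ≤ 1) (e B : ℝ) (he : 0 < e) (hB : 0 < B) :
    ∃ C T₀ : ℝ, 1 ≤ C ∧
    ∀ T R L : ℝ, T₀ ≤ T → C ≤ L → Rng d T R L →
    ∃ E : Set ℝ, volume E ≤ ENNReal.ofReal (C * L ^ (-B) * T) ∧ ∀ t ∈ Icc T (2 * T), t ∉ E → ∀ F : Fam R L,
      |St F T t - Ev F id| ≤ F.B * L ^ e := by
  -- the exponent of the short scale and of the deviations
  set f : ℝ := min (e / 2) (1 / 2) with hf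
  have hf0 : 0 < f := lt_min (by linarith) (by norm_num)
  have hfe : f ≤ e / 2 := min_le_left _ _
  have hf1 : f ≤ 1 / 2 := min_le_right _ _
  set ε : ℝ := min f d with hε
  have hε0 : 0 < ε := lt_min hf0 hd
  have hεf : ε ≤ f := min_le_left _ _
  have hεd : ε ≤ d := min_le_right _ _
  obtain ⟨C, T₀, hC, h⟩ := Pool.Agent.Helper53.NS.dev_thick h1 ε (B / f) hε0 (by positivity)
  -- `L` large
  obtain ⟨x₀, hx₀⟩ : ∃ x₀ : ℝ, ∀ x : ℝ, x₀ ≤ x → 17 * x ^ f ≤ x ^ e := by
    obtain ⟨y₀, hy₀⟩ := eventually_atTop.mp ((tendsto_rpow_atTop (show (0:ℝ) < e / 2 by linarith)).eventually_ge_atTop 17)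
    refine ⟨max y₀ 1, fun x hx => ?_⟩
    have hx1 : 1 ≤ x := (le_max_right _ _).trans hx
    have e1 := hy₀ x ((le_max_left _ _).trans hx)
    have e2 : x ^ e = x ^ (e / 2) * x ^ (e / 2) := by
      rw [← Real.rpow_add (by linarith)]
      congr 1
      ring
    have e3 : x ^ f ≤ x ^ (e / 2) := Real.rpow_le_rpow_of_exponent_le hx1 hfe
    rw [e2]
    have e4 : 0 ≤ x ^ (e / 2) := Real.rpow_nonneg (by linarith) _
    calc 17 * x ^ f ≤ 17 * x ^ (e / 2) := by linarith
      _ ≤ _ := mul_le_mul_of_nonneg_right e1 e4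
  refine ⟨max C (max (C ^ (1 / f)) (max x₀ 2)), max T₀ (Real.exp 3), hC.trans (le_max_left _ _), fun T R L hT hCL hRng => ?_⟩
  obtain ⟨r1, r2, r3⟩ := hRng
  have hC0 : 0 < C := by linarith
  have hT0 : T₀ ≤ T := (le_max_left _ _).trans hT
  have hT3 : Real.exp 3 ≤ T := (le_max_right _ _).trans hT
  have hTpos : 0 < T := (Real.exp_pos 3).trans_le hT3
  have hl3 : 3 ≤ Real.log T := by rwa [Real.le_log_iff_exp_le hTpos]
  have hl0 : 0 < Real.log T := by linarith
  have hLC : C ^ (1 / f) ≤ L := (le_max_left _ _).trans ((le_max_right _ _).trans hCL)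
  have hLx : x₀ ≤ L := (le_max_left _ _).trans ((le_max_right _ _).trans ((le_max_right _ _).trans hCL))
  have hL2 : 2 ≤ L := (le_max_right _ _).trans ((le_max_right _ _).trans ((le_max_right _ _).trans hCL))
  have hL0 : 0 < L := by linarith
  have hs0 : 0 < sp T := by
    show 0 < 2 * Real.pi / Real.log T
    have := Real.pi_pos
    positivity
  -- the short scale
  set Lf : ℝ := L ^ f with hLf
  have hLf1 : C ≤ Lf := by
    have h2 := Real.rpow_le_rpow (by positivity) hLC hf0.le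
    rwa [← Real.rpow_mul hC0.le, one_div_mul_cancel hf0.ne', Real.rpow_one] at h2
  have hLfL : Lf ≤ L := by
    calc L ^ f ≤ L ^ (1 : ℝ) := Real.rpow_le_rpow_of_exponent_le (by linarith) (by linarith)
      _ = L := Real.rpow_one L
  have hLlog : L ≤ Real.log T := by
    refine r1.trans ?_
    calc Real.log T ^ (1 - d) ≤ Real.log T ^ (1 : ℝ) := Real.rpow_le_rpow_of_exponent_le (by linarith) (by linarith)
      _ = _ := Real.rpow_one _
  have hLf1' : 1 ≤ Lf := hC.trans hLf1
  obtain ⟨E, hE, hdev⟩ := h T Lf hT0 hLf1 (hLfL.trans hLlog)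
  refine ⟨E, hE.trans (ENNReal.ofReal_le_ofReal ?_), fun t ht htE F => ?_⟩
  · have e1 : Lf ^ (-(B / f)) = L ^ (-B) := by
      rw [hLf, ← Real.rpow_mul hL0.le]
      congr 1
      field_simp
    rw [e1]
    have e2 : 0 ≤ L ^ (-B) := Real.rpow_nonneg hL0.le _
    exact mul_le_mul_of_nonneg_right (mul_le_mul_of_nonneg_right (le_max_left _ _) e2) hTpos.le
  · have hdt := hdev t ⟨by linarith [ht.1], by linarith [ht.2]⟩ htE t (by rw [sub_self, abs_zero]; exact hs0.le)
    -- deviations of the windows beside `t`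
    have hlong : ∀ x : ℝ, Lf ≤ x → x ≤ L + 1 → x ^ ε + x * Real.log T ^ (-(1 - ε)) ≤ 4 * Lf := by
      intro x hx1 hx2
      have hx0 : 1 ≤ x := hLf1'.trans hx1
      have hx2L : x ≤ 2 * L := by linarith
      have k1 : x ^ ε ≤ 2 * Lf := by
        calc x ^ ε ≤ x ^ f := Real.rpow_le_rpow_of_exponent_le hx0 hεf
          _ ≤ (2 * L) ^ f := Real.rpow_le_rpow (by linarith) hx2L hf0.le
          _ = 2 ^ f * L ^ f := Real.mul_rpow (by norm_num) hL0.le
          _ ≤ 2 ^ (1 : ℝ) * L ^ f := by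
              refine mul_le_mul_of_nonneg_right (Real.rpow_le_rpow_of_exponent_le (by norm_num) (by linarith)) ?_
              exact Real.rpow_nonneg hL0.le _
          _ = _ := by rw [Real.rpow_one]
      have k2 : x * Real.log T ^ (-(1 - ε)) ≤ 2 * Lf := by
        have k3 : 0 ≤ Real.log T ^ (-(1 - ε)) := Real.rpow_nonneg hl0.le _
        calc x * Real.log T ^ (-(1 - ε)) ≤ (2 * Real.log T ^ (1 - d)) * Real.log T ^ (-(1 - ε)) :=
              mul_le_mul_of_nonneg_right (by linarith) k3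
          _ = 2 * Real.log T ^ (ε - d) := by
              rw [mul_assoc, ← Real.rpow_add hl0]
              congr 2
              ring
          _ ≤ 2 * 1 := by
              refine mul_le_mul_of_nonneg_left ?_ (by norm_num)
              exact Real.rpow_le_one_of_one_le_of_nonpos (by linarith) (by linarith)
          _ ≤ 2 * Lf := by linarith
      linarith
    have h10 : L + 1 ≤ Real.log T ^ 10 := by
      have g1 : Real.log T ^ 2 ≤ Real.log T ^ 10 := pow_le_pow_right₀ (by linarith) (by norm_num)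
      nlinarith
    have hright : ∀ x : ℝ, Lf ≤ x → x ≤ L + 1 → |(zc (Ico t (t + x * sp T)) : ℝ) - x| ≤ 4 * Lf := fun x hx1 hx2 =>
      ((hdt x hx1 (hx2.trans h10)).1).trans (hlong x hx1 hx2)
    have hleft : ∀ x : ℝ, Lf ≤ x → x ≤ L + 1 → |(zc (Ico (t - x * sp T) t) : ℝ) - x| ≤ 4 * Lf := fun x hx1 hx2 =>
      ((hdt x hx1 (hx2.trans h10)).2).trans (hlong x hx1 hx2)
    have hall : ∀ x : ℝ, |x| ≤ L + 1 → |sN T t x - x| ≤ 5 * Lf := by
      intro x hx
      have hx' := abs_le.1 hx
      unfold sN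
      rcases le_or_gt 0 x with hx0 | hx0
      · rw [if_pos hx0]
        rcases le_total Lf x with h2 | h2
        · exact (hright x h2 hx'.2).trans (by linarith)
        · have g1 : (zc (Ico t (t + x * sp T)) : ℝ) ≤ (zc (Ico t (t + Lf * sp T)) : ℝ) := by
            have : zc (Ico t (t + x * sp T)) ≤ zc (Ico t (t + Lf * sp T)) :=
              zc_mono (fun u hu => ⟨hu.1, lt_of_lt_of_le hu.2 (by nlinarith)⟩) Ico_subset_Icc_self
            exact_mod_cast this
          have g2 := abs_le.1 (hright Lf le_rfl (by linarith))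
          have g3 : (0 : ℝ) ≤ (zc (Ico t (t + x * sp T)) : ℝ) := Nat.cast_nonneg _
          rw [abs_le]
          constructor <;> linarith [g2.2]
      · rw [if_neg (not_le.2 hx0)]
        have e1 : t + x * sp T = t - (-x) * sp T := by ring
        rw [e1]
        have e2 : |-(zc (Ico (t - -x * sp T) t) : ℝ) - x| = |(zc (Ico (t - -x * sp T) t) : ℝ) - -x| := by
          rw [← abs_neg]
          congr 1
          ring
        rw [e2]
        rcases le_total Lf (-x) with h2 | h2
        · exact (hleft (-x) h2 (by linarith [hx'.1])).trans (by linarith)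
        · have g1 : (zc (Ico (t - -x * sp T) t) : ℝ) ≤ (zc (Ico (t - Lf * sp T) t) : ℝ) := by
            have : zc (Ico (t - -x * sp T) t) ≤ zc (Ico (t - Lf * sp T) t) :=
              zc_mono (fun u hu => ⟨le_trans (by nlinarith) hu.1, hu.2⟩) Ico_subset_Icc_self
            exact_mod_cast this
          have g2 := abs_le.1 (hleft Lf le_rfl (by linarith))
          have g3 : (0 : ℝ) ≤ (zc (Ico (t - -x * sp T) t) : ℝ) := Nat.cast_nonneg _
          rw [abs_le]
          constructor <;> linarith [g2.2]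
    have hRpos : 0 ≤ R := (Real.rpow_nonneg hL0.le d).trans r2
    have hRL : R ≤ L := by
      refine r3.trans ?_
      calc L ^ (1 - d) ≤ L ^ (1 : ℝ) := Real.rpow_le_rpow_of_exponent_le (by linarith) (by linarith)
        _ = L := Real.rpow_one L
    refine (st_near hs0 t hRpos hRL (by linarith) hall F).trans ?_
    have hB0 : 0 ≤ F.B := by
      unfold Fam.B
      have : 0 ≤ ∑ i, |F.c i| := Finset.sum_nonneg fun i _ => abs_nonneg _
      linarith
    refine mul_le_mul_of_nonneg_left ?_ hB0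
    have := hx₀ L hLx
    linarith

end Pool.Agent.Helper8.OP
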